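import Mathlib

set_option autoImplicit false

namespace Pool.Agent.Results.MP_757726_co.PeriodicityCriterion

variable {α : Type*}

/-- An involutory antimorphism of the free monoid of words. -/
structure InvAnti (α : Type*) where
  /-- the map on words -/
  toFun : List α → List α
  anti : ∀ v w, toFun (v ++ w) = toFun w ++ toFun v
  invol : ∀ w, toFun (toFun w) = w

/-- `v` is the shortest `ϑ`-palindrome with prefix `w`. -/
def IsPalClosure (ϑ : InvAnti α) (w v : List α) : Prop :=
  (ϑ.toFun v = v ∧ w <+: v) ∧ ∀ v', ϑ.toFun v' = v' → w <+: v' → v.length ≤ v'.length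

theorem exists_palClosure (ϑ : InvAnti α) (w : List α) : ∃ v, IsPalClosure ϑ w v := by
  have hne : ∃ n, ∃ v : List α, (ϑ.toFun v = v ∧ w <+: v) ∧ v.length = n :=
    ⟨_, w ++ ϑ.toFun w, ⟨by rw [ϑ.anti, ϑ.invol], List.prefix_append _ _⟩, rfl⟩
  classical
  obtain ⟨v, hv, hl⟩ := Nat.find_spec hne
  exact ⟨v, hv, fun v' h1 h2 => hl ▸ Nat.find_min' hne ⟨v', ⟨h1, h2⟩, rfl⟩⟩

/-- The `ϑ`-palindromic closure. -/
noncomputable def palClosure (ϑ : InvAnti α) (w : List α) : List α :=
  Classical.choose (exists_palClosure ϑ w)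

theorem palClosure_spec (ϑ : InvAnti α) (w : List α) : IsPalClosure ϑ w (palClosure ϑ w) :=
  Classical.choose_spec (exists_palClosure ϑ w)

/-- The words `w_n` of the bi-sequence: `w_0` is empty and `w_{n+1}` is the closure of
`w_n δ_{n+1}`; here `Δ n` is `δ_{n+1}` and `Θ n` is `ϑ_{n+1}`. -/
noncomputable def pw (Δ : ℕ → α) (Θ : ℕ → InvAnti α) : ℕ → List α
  | 0 => []
  | n + 1 => palClosure (Θ n) (pw Δ Θ n ++ [Δ n])

/-- The prefix of length `L` of an infinite word. -/
def pre (u : ℕ → α) (L : ℕ) : List α := (List.range L).map u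

/-- `u` is the generalized pseudostandard word directed by `(Δ, Θ)`. -/
def Directs (Δ : ℕ → α) (Θ : ℕ → InvAnti α) (u : ℕ → α) : Prop :=
  ∀ n, pw Δ Θ n = pre u (pw Δ Θ n).length

/-- The bi-sequence is normalized: every pseudopalindromic prefix of `u` is some `w_n`. -/
def Normalized (Δ : ℕ → α) (Θ : ℕ → InvAnti α) (u : ℕ → α) : Prop :=
  ∀ (L : ℕ) (ϑ : InvAnti α), ϑ.toFun (pre u L) = pre u L → ∃ n, pw Δ Θ n = pre u L

/-- `u` is (eventually) periodic. -/
def Periodic (u : ℕ → α) : Prop := ∃ m p : ℕ, 0 < p ∧ ∀ j, m ≤ j → u (j + p) = u j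

/-- Conditions 1 and 2 for the tail starting at `K`: the tail is `δ_i = Δ (K + i - 1)`,
`ϑ_i = Θ (K + i - 1)` for `i ≥ 1`. -/
def Cond (Δ : ℕ → α) (Θ : ℕ → InvAnti α) (K : ℕ) : Prop :=
  (∀ i j, (Θ (K + i)).toFun [Δ (K + (i + 1))] = (Θ (K + j)).toFun [Δ (K + (j + 1))]) ∧
  ∀ i (w : List α), (Θ (K + i)).toFun w = w →
    (Θ (K + (i + 2))).toFun ((Θ (K + (i + 1))).toFun w) = (Θ (K + (i + 1))).toFun w

theorem InvAnti.exists_letter (ϑ : InvAnti α) :
    ∃ e : α → α, (∀ a, e (e a) = a) ∧ ∀ w, ϑ.toFun w = (w.map e).reverse := by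
  have h0 : ϑ.toFun [] = [] := by
    have := ϑ.anti [] []
    simp only [List.append_nil] at this
    have hl := congrArg List.length this
    rw [List.length_append] at hl
    exact List.length_eq_zero_iff.1 (by omega)
  have hne : ∀ a, 1 ≤ (ϑ.toFun [a]).length := by
    intro a
    by_contra hlt
    have : ϑ.toFun [a] = [] := List.length_eq_zero_iff.1 (by omega)
    have h2 := ϑ.invol [a]
    rw [this, h0] at h2
    simp at h2
  have hle : ∀ w, w.length ≤ (ϑ.toFun w).length := by
    intro w
    induction w with
    | nil => simp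
    | cons a w ih =>
      have : a :: w = [a] ++ w := rfl
      rw [this, ϑ.anti, List.length_append, List.length_append]
      have := hne a
      simp only [List.length_singleton]
      omega
  have h1 : ∀ a, ∃ b, ϑ.toFun [a] = [b] := by
    intro a
    have h2 := hle (ϑ.toFun [a])
    rw [ϑ.invol] at h2
    have h3 := hne a
    exact List.length_eq_one_iff.1 (le_antisymm h2 h3)
  choose e he using h1
  refine ⟨e, fun a => ?_, fun w => ?_⟩
  · have := ϑ.invol [a]
    rw [he, he] at this
    simpa using this
  · induction w with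
    | nil => simpa using h0
    | cons a w ih =>
      have : a :: w = [a] ++ w := rfl
      rw [this, ϑ.anti, ih, he]
      simp

/-- The closure is unique, so `palClosure ϑ w` is *the* shortest `ϑ`-palindrome with prefix `w`. -/
theorem palClosure_unique (ϑ : InvAnti α) {w v v' : List α} (h : IsPalClosure ϑ w v)
    (h' : IsPalClosure ϑ w v') : v = v' := by
  obtain ⟨e, -, hw⟩ := ϑ.exists_letter
  have hl : v.length = v'.length := le_antisymm (h.2 v' h'.1.1 h'.1.2) (h'.2 v h.1.1 h.1.2)
  have h2 : v.length ≤ 2 * w.length := by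
    have := h.2 (w ++ ϑ.toFun w) (by rw [ϑ.anti, ϑ.invol]) (List.prefix_append _ _)
    rw [List.length_append, hw, List.length_reverse, List.length_map] at this
    omega
  have key : ∀ x : List α, ϑ.toFun x = x → w <+: x → x.length = v.length → ∀ i < x.length,
      x[i]? = if i < w.length then w[i]? else (w[v.length - 1 - i]?).map e := by
    intro x hx hpx hlx i hi
    obtain ⟨t, ht⟩ := hpx
    split_ifs with h3
    · rw [← ht, List.getElem?_append_left h3]
    · have h4 : x[i]? = ((x.map e).reverse)[i]? := by rw [← hw, hx]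
      rw [h4, List.getElem?_reverse (by simpa using hi), List.getElem?_map, List.length_map, hlx]
      congr 1
      rw [← ht, List.getElem?_append_left (by omega)]
  apply List.ext_getElem?
  intro i
  by_cases hi : i < v.length
  · rw [key v h.1.1 h.1.2 rfl i hi, key v' h'.1.1 h'.1.2 hl.symm i (by omega)]
  · rw [List.getElem?_eq_none (by omega), List.getElem?_eq_none (by omega)]

/-- The involutory antimorphism of a letter involution. -/
def ofInv (e : α → α) (h : ∀ a, e (e a) = a) : InvAnti α where
  toFun w := (w.map e).reverse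
  anti v w := by simp
  invol w := by
    rw [List.map_reverse, List.reverse_reverse, List.map_map]
    have : e ∘ e = id := funext h
    rw [this, List.map_id]

theorem pre_length (u : ℕ → α) (L : ℕ) : (pre u L).length = L := by simp [pre]

theorem pal_iff {e : α → α} {u : ℕ → α} {L : ℕ} :
    ((pre u L).map e).reverse = pre u L ↔ ∀ j < L, e (u (L - 1 - j)) = u j := by
  constructor
  · intro h j hj
    have := congrArg (fun l : List α => l[j]?) h
    simp only [pre, List.map_map] at this
    rw [List.getElem?_reverse (by simpa using hj)] at this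
    simp only [List.length_map, List.length_range, List.getElem?_map] at this
    rw [List.getElem?_range (by omega), List.getElem?_range hj] at this
    simpa using this
  · intro h
    apply List.ext_getElem
    · simp [pre]
    · intro i h1 h2
      simp only [pre, List.length_map, List.length_range] at h2
      have := h i h2
      simp [pre, this]

theorem pre_prefix {u z : ℕ → α} {m L : ℕ} (h : m ≤ L) (hz : ∀ j < m, z j = u j) :
    pre u m <+: pre z L := by
  have h1 : pre u m = pre z m := by
    unfold pre
    apply List.map_congr_left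
    intro j hj
    exact (hz j (List.mem_range.1 hj)).symm
  rw [h1]
  obtain ⟨k, rfl⟩ := Nat.exists_eq_add_of_le h
  unfold pre
  rw [List.range_add, List.map_append]
  exact List.prefix_append _ _

theorem pre_succ (u : ℕ → α) (m : ℕ) : pre u (m + 1) = pre u m ++ [u m] := by
  simp [pre, List.range_succ]

theorem prefix_pre {u : ℕ → α} {m L : ℕ} {a : α} (h : pre u m ++ [a] <+: pre u L) :
    m + 1 ≤ L ∧ u m = a := by
  have h1 := h.length_le
  simp only [List.length_append, pre_length, List.length_singleton] at h1
  refine ⟨h1, ?_⟩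
  obtain ⟨t, ht⟩ := h
  have := congrArg (fun l : List α => l[m]?) ht
  simp only [pre] at this
  rw [List.getElem?_append_left (by simp), List.getElem?_append_right (by simp)] at this
  simp only [List.length_map, List.length_range, Nat.sub_self, List.getElem?_cons_zero,
    List.getElem?_map] at this
  rw [List.getElem?_range (by omega)] at this
  simpa using this.symm

/-- A nonincreasing sequence of naturals is eventually constant. -/
theorem eventually_const (g : ℕ → ℕ) (K : ℕ) (h : ∀ m, K ≤ m → g (m + 1) ≤ g m) :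
    ∃ I, K ≤ I ∧ ∀ m, I ≤ m → g m = g I := by
  have hne : ∃ v, ∃ m, K ≤ m ∧ g m = v := ⟨_, K, le_rfl, rfl⟩
  classical
  obtain ⟨I, hI, hv⟩ := Nat.find_spec hne
  refine ⟨I, hI, fun m hm => ?_⟩
  have h1 : g m ≤ g I := by
    induction m, hm using Nat.le_induction with
    | base => exact le_rfl
    | succ m hm ih => exact (h m (by omega)).trans ih
  have h2 := Nat.find_min' hne ⟨m, by omega, rfl⟩
  omega

section main

variable {Δ : ℕ → α} {Θ : ℕ → InvAnti α} {u : ℕ → α} {e : ℕ → α → α}

/-- Everything we use about the words, in terms of `u` and the lengths `M n = |w_{n+1}|`. -/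
theorem facts (hu : Directs Δ Θ u) (he : ∀ n w, (Θ n).toFun w = (w.map (e n)).reverse) :
    ∃ M : ℕ → ℕ, (∀ n, pw Δ Θ (n + 1) = pre u (M n)) ∧ (∀ n, M n < M (n + 1)) ∧
      (∀ n, u (M n) = Δ (n + 1)) ∧ (∀ n, ∀ j < M n, e n (u (M n - 1 - j)) = u j) ∧
      ∀ n (z : ℕ → α) (L : ℕ), (∀ j ≤ M n, z j = u j) → M n + 1 ≤ L →
        (∀ j < L, e (n + 1) (z (L - 1 - j)) = z j) → M (n + 1) ≤ L := by
  refine ⟨fun n => (pw Δ Θ (n + 1)).length, fun n => hu (n + 1), ?_, ?_, ?_, ?_⟩
  · intro n
    have h := (palClosure_spec (Θ (n + 1)) (pw Δ Θ (n + 1) ++ [Δ (n + 1)])).1.2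
    have := h.length_le
    simp only [List.length_append, List.length_singleton] at this
    exact this
  · intro n
    have h : pw Δ Θ (n + 1) ++ [Δ (n + 1)] <+: pw Δ Θ (n + 2) :=
      (palClosure_spec (Θ (n + 1)) (pw Δ Θ (n + 1) ++ [Δ (n + 1)])).1.2
    rw [hu (n + 1), hu (n + 2)] at h
    exact (prefix_pre h).2
  · intro n
    have h : (Θ n).toFun (pw Δ Θ (n + 1)) = pw Δ Θ (n + 1) :=
      (palClosure_spec (Θ n) (pw Δ Θ n ++ [Δ n])).1.1
    rw [he, hu (n + 1)] at h
    exact pal_iff.1 h
  · intro n z L hz hL hpal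
    have hmin := (palClosure_spec (Θ (n + 1)) (pw Δ Θ (n + 1) ++ [Δ (n + 1)])).2 (pre z L)
      (by rw [he]; exact pal_iff.2 hpal) (by
        have h1 : pw Δ Θ (n + 1) ++ [Δ (n + 1)] <+: pw Δ Θ (n + 2) :=
          (palClosure_spec (Θ (n + 1)) (pw Δ Θ (n + 1) ++ [Δ (n + 1)])).1.2
        rw [hu (n + 1), hu (n + 2)] at h1
        have h2 := (prefix_pre h1).2
        rw [hu (n + 1), ← h2, ← pre_succ]
        exact pre_prefix hL (fun j hj => hz j (Nat.le_of_lt_succ hj)))
    rw [pre_length] at hmin
    exact hmin

/-- Condition 2 read on letters. -/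
theorem cond2_iff {f g h : α → α} (hf : ∀ a, f (f a) = a) :
    (∀ w : List α, (w.map f).reverse = w →
      ((((w.map g).reverse).map h).reverse) = (w.map g).reverse) ↔
    ∀ a, h (g (f a)) = g a := by
  constructor
  · intro H a
    have h4 := H [f a, a] (by simp [hf])
    simp only [List.map_cons, List.map_nil, List.reverse_cons, List.reverse_nil,
      List.nil_append, List.cons_append, List.cons.injEq, and_true] at h4
    exact h4.1
  · intro H w hw
    rw [List.map_reverse, List.reverse_reverse, List.map_map]
    conv_lhs => rw [← hw]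
    rw [List.map_reverse, List.map_map]
    congr 1
    apply List.map_congr_left
    intro a _
    exact H a

theorem periodic_of_cond [Finite α] {M : ℕ → ℕ} {K : ℕ}
    (hinv : ∀ n a, e n (e n a) = a) (hM : ∀ n, M n < M (n + 1))
    (hpal : ∀ n, ∀ j < M n, e n (u (M n - 1 - j)) = u j)
    (hmin : ∀ n (z : ℕ → α) (L : ℕ), (∀ j ≤ M n, z j = u j) → M n + 1 ≤ L →
        (∀ j < L, e (n + 1) (z (L - 1 - j)) = z j) → M (n + 1) ≤ L)
    (hc1 : ∀ m, K ≤ m → e m (u (M m)) = e K (u (M K)))
    (hc2 : ∀ m, K ≤ m → ∀ a, e (m + 2) (e (m + 1) (e m a)) = e (m + 1) a) : Periodic u := by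
  have hdiff : ∀ m, K ≤ m → M (m + 1 + 1) - M (m + 1) ≤ M (m + 1) - M m := by
    intro m hm
    have hM1 := hM m
    have hM2 := hM (m + 1)
    suffices h : M (m + 1 + 1) ≤ 2 * M (m + 1) - M m by omega
    have e1 : u (M m) = e m (e K (u (M K))) := by rw [← hc1 m hm, hinv]
    have e2 : u (M (m + 1)) = e (m + 1) (e K (u (M K))) := by rw [← hc1 (m + 1) (by omega), hinv]
    -- the symmetry of the suffix of length `M m` of the prefix of length `M (m+1)`
    have sym : ∀ j, M (m + 1) - M m ≤ j → j < M (m + 1) →
        e (m + 2) (u (2 * M (m + 1) - M m - 1 - j)) = u j := by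
      intro j h1 h2
      have a1 := hpal (m + 1) (2 * M (m + 1) - M m - 1 - j) (by omega)
      have a2 := hpal (m + 1) j h2
      have a3 := hpal m (M (m + 1) - 1 - j) (by omega)
      have q1 : M (m + 1) - 1 - (2 * M (m + 1) - M m - 1 - j) = M m - 1 - (M (m + 1) - 1 - j) := by
        omega
      rw [q1] at a1
      rw [← a1, ← a2, ← a3]
      have := hc2 m hm (e m (u (M m - 1 - (M (m + 1) - 1 - j))))
      rw [hinv] at this
      exact this
    refine hmin (m + 1) (fun j => if j < M (m + 1) then u j else
      e (m + 2) (u (2 * M (m + 1) - M m - 1 - j))) _ ?_ (by omega) ?_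
    · intro j hj
      by_cases h1 : j < M (m + 1)
      · simp only [if_pos h1]
      · have h2 : j = M (m + 1) := by omega
        subst h2
        simp only [if_neg h1]
        have a1 := hpal (m + 1) (M m) (by omega)
        have q1 : 2 * M (m + 1) - M m - 1 - M (m + 1) = M (m + 1) - 1 - M m := by omega
        rw [q1]
        have a2 : u (M (m + 1) - 1 - M m) = e (m + 1) (u (M m)) := by rw [← a1, hinv]
        rw [a2, e1, e2]
        exact hc2 m hm _
    · intro j hj
      by_cases h1 : j < M (m + 1)
      · by_cases h2 : 2 * M (m + 1) - M m - 1 - j < M (m + 1)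
        · rw [if_pos h1, if_pos h2]
          exact sym j (by omega) h1
        · rw [if_pos h1, if_neg h2]
          have q1 : 2 * M (m + 1) - M m - 1 - (2 * M (m + 1) - M m - 1 - j) = j := by omega
          rw [q1]
          exact hinv _ _
      · have h2 : 2 * M (m + 1) - M m - 1 - j < M (m + 1) := by omega
        rw [if_neg h1, if_pos h2]
  obtain ⟨I, hI, hconst⟩ := eventually_const (fun m => M (m + 1) - M m) K hdiff
  set g := M (I + 1) - M I with hg
  have hg0 : 0 < g := by have := hM I; omega
  have hπ : ∀ m, I ≤ m → ∀ a, e (m + 1) (e m a) = e (I + 1) (e I a) := by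
    intro m hm
    induction m, hm using Nat.le_induction with
    | base => intro a; rfl
    | succ m hm ih =>
      intro a
      rw [← ih a]
      have h1 := hc2 m (by omega) (e m a)
      rw [hinv] at h1
      exact h1
  have hge : ∀ m, m ≤ M m := by
    intro m
    induction m with
    | zero => omega
    | succ m ih => have := hM m; omega
  have hshift : ∀ j, u (j + g) = e (I + 1) (e I (u j)) := by
    intro j
    have hm : I ≤ I + j + 1 := by omega
    have h1 := hge (I + j + 1)
    have h2 := hconst (I + j + 1) hm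
    have h3 := hM (I + j + 1)
    rw [← hπ _ hm]
    have a1 := hpal (I + j + 1) (M (I + j + 1) - 1 - j) (by omega)
    have a2 := hpal (I + j + 1 + 1) (j + g) (by omega)
    have q1 : M (I + j + 1) - 1 - (M (I + j + 1) - 1 - j) = j := by omega
    have q2 : M (I + j + 1 + 1) - 1 - (j + g) = M (I + j + 1) - 1 - j := by omega
    rw [q1] at a1
    rw [q2] at a2
    rw [a1, a2]
  let π : Equiv.Perm α :=
    { toFun := fun a => e (I + 1) (e I a)
      invFun := fun a => e I (e (I + 1) a)
      left_inv := fun a => by simp only [hinv]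
      right_inv := fun a => by simp only [hinv] }
  have hord : 0 < orderOf π := orderOf_pos π
  have hk : ∀ k j, u (j + k * g) = (π ^ k) (u j) := by
    intro k
    induction k with
    | zero => intro j; simp
    | succ k ih =>
      intro j
      have : j + (k + 1) * g = (j + k * g) + g := by ring
      rw [this, hshift, ih, pow_succ']
      rfl
  refine ⟨0, orderOf π * g, Nat.mul_pos hord hg0, fun j _ => ?_⟩
  rw [hk, pow_orderOf_eq_one]
  rfl

theorem cond_of_periodic {M : ℕ → ℕ}
    (hinv : ∀ n a, e n (e n a) = a) (hM : ∀ n, M n < M (n + 1))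
    (hpal : ∀ n, ∀ j < M n, e n (u (M n - 1 - j)) = u j)
    (hnorm : ∀ (L : ℕ) (f : α → α), (∀ a, f (f a) = a) → (∀ j < L, f (u (L - 1 - j)) = u j) →
      ∀ m, M m < L → M (m + 1) ≤ L)
    (hary : ∀ a, ∃ i, u i = a) (hper : Periodic u) :
    ∃ K, (∀ m, K ≤ m → e m (u (M m)) = e K (u (M K))) ∧
      ∀ m, K ≤ m → ∀ a, e (m + 2) (e (m + 1) (e m a)) = e (m + 1) a := by
  obtain ⟨m0, P, hP, hper⟩ := hper
  have hge : ∀ m, m ≤ M m := by
    intro m
    induction m with
    | zero => omega
    | succ m ih => have := hM m; omega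
  -- pure periodicity
  have hpure : ∀ j, u (j + P) = u j := by
    intro j
    have h1 := hge (m0 + P + j + 1)
    set n := m0 + P + j + 1 with hn
    have a1 := hpal n j (by omega)
    have a2 := hpal n (j + P) (by omega)
    have a3 := hper (M n - 1 - (j + P)) (by omega)
    have q : M n - 1 - (j + P) + P = M n - 1 - j := by omega
    rw [q] at a3
    rw [← a1, ← a2, a3]
  have hmul : ∀ k j, u (j + k * P) = u j := by
    intro k
    induction k with
    | zero => intro j; simp
    | succ k ih =>
      intro j
      have : j + (k + 1) * P = (j + k * P) + P := by ring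
      rw [this, hpure, ih]
  -- two-sided extension
  let v : ℤ → α := fun k => u (k % P).toNat
  have hPz : (0 : ℤ) < P := by exact_mod_cast hP
  have hv : ∀ j : ℕ, v j = u j := by
    intro j
    have h1 : ((j : ℤ) % P).toNat = j % P := by
      rw [← Int.natCast_mod, Int.toNat_natCast]
    simp only [v, h1]
    conv_rhs => rw [← Nat.mod_add_div j P]
    rw [mul_comm P, hmul]
  have hvP : ∀ k l : ℤ, (P : ℤ) ∣ k - l → v k = v l := by
    intro k l h
    simp only [v]
    have h2 : k % P = l % P := (Int.modEq_iff_dvd.2 h).symm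
    rw [h2]
  have hR : ∀ m, P ≤ m → ∀ k : ℤ, e m (v (M m - 1 - k)) = v k := by
    intro m hm k
    have h1 := hge m
    have h2 : 0 ≤ k % P := Int.emod_nonneg k hPz.ne'
    have h3 : k % P < P := Int.emod_lt_of_pos k hPz
    obtain ⟨j, hj⟩ := Int.eq_ofNat_of_zero_le h2
    have a1 := hpal m j (by omega)
    have a2 : v k = u j := by
      rw [← hv j]
      apply hvP
      rw [← hj]
      exact Int.dvd_self_sub_emod
    have a3 : v (M m - 1 - k) = u (M m - 1 - j) := by
      rw [← hv (M m - 1 - j)]
      apply hvP
      have : ((M m - 1 - j : ℕ) : ℤ) = (M m : ℤ) - 1 - j := by omega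
      rw [this, ← hj]
      have : (M m : ℤ) - 1 - k - (M m - 1 - k % P) = -(k - k % P) := by ring
      rw [this]
      exact (Int.dvd_self_sub_emod).neg_right
    rw [a2, a3, a1]
  have hR' : ∀ m, P ≤ m → ∀ k : ℤ, e m (v k) = v (M m - 1 - k) := by
    intro m hm k
    have := hR m hm (M m - 1 - k)
    have q : (M m : ℤ) - 1 - (M m - 1 - k) = k := by ring
    rw [q] at this
    exact this
  -- the next candidate
  have hcand : ∀ m, P ≤ m → ∀ k : ℤ,
      e (m + 1) (e m (e (m + 1) (v k))) = v (2 * M (m + 1) - M m - 1 - k) := by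
    intro m hm k
    rw [hR' (m + 1) (by omega), hR' m hm, hR' (m + 1) (by omega)]
    congr 1; ring
  have hdiff : ∀ m, P ≤ m → M (m + 1 + 1) - M (m + 1) ≤ M (m + 1) - M m := by
    intro m hm
    have hM1 := hM m
    have hM2 := hM (m + 1)
    suffices h : M (m + 1 + 1) ≤ 2 * M (m + 1) - M m by omega
    refine hnorm _ (fun a => e (m + 1) (e m (e (m + 1) a))) (fun a => by simp only [hinv]) ?_
      (m + 1) (by omega)
    intro j hj
    have := hcand m hm ((2 * M (m + 1) - M m - 1 - j : ℕ) : ℤ)
    rw [hv] at this
    rw [this]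
    have q : (2 * (M (m + 1) : ℤ) - M m - 1 - ((2 * M (m + 1) - M m - 1 - j : ℕ) : ℤ)) = j := by
      omega
    rw [q, hv]
  obtain ⟨I, hI, hconst⟩ := eventually_const (fun m => M (m + 1) - M m) P hdiff
  refine ⟨I, fun m hm => ?_, fun m hm a => ?_⟩
  · rw [← hv (M m), ← hv (M I), hR' m (by omega), hR' I hI]
    congr 1; ring
  · obtain ⟨i, hi⟩ := hary (e (m + 1) (e m a))
    rw [← hi, ← hv i, hR' (m + 2) (by omega)]
    have h1 := hconst m hm
    have h2 := hconst (m + 1) (by omega)
    have h3 := hM m
    have h4 := hM (m + 1)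
    have h5 : (M (m + 2) : ℤ) = 2 * M (m + 1) - M m := by
      have : m + 1 + 1 = m + 2 := rfl
      rw [this] at h2 h4
      omega
    rw [h5, ← hcand m (by omega), hv i, hi]
    simp only [hinv]

end main

/-- **The periodicity criterion.** Let `u` be a generalized pseudostandard word over a finite
alphabet in which every letter occurs, directed by a normalized bi-sequence `(Δ, Θ)`. Then `u` is
periodic if and only if conditions 1 and 2 hold for some tail of `(Δ, Θ)`. -/
theorem result {α : Type*} [Finite α] (Δ : ℕ → α) (Θ : ℕ → InvAnti α) (u : ℕ → α)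
    (hu : Directs Δ Θ u) (hnorm : Normalized Δ Θ u) (hary : ∀ a, ∃ i, u i = a) :
    Periodic u ↔ ∃ K, Cond Δ Θ K := by
  choose e hinv he using fun n => (Θ n).exists_letter
  obtain ⟨M, h1, h2, h3, h4, h5⟩ := facts (e := e) hu he
  constructor
  · intro hper
    obtain ⟨K, hK1, hK2⟩ := cond_of_periodic hinv h2 h4 (fun L f hf hpal m hm => by
      obtain ⟨n, hn⟩ := hnorm L (ofInv f hf) (by
        show ((pre u L).map f).reverse = pre u L
        exact pal_iff.2 hpal)
      have hmono : StrictMono M := strictMono_nat_of_lt_succ h2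
      rcases n with _ | n
      · have := congrArg List.length hn
        rw [pre_length] at this
        simp only [pw, List.length_nil] at this
        omega
      · rw [h1 n] at hn
        have hL := congrArg List.length hn
        rw [pre_length, pre_length] at hL
        have : m < n := by
          by_contra hlt
          have := hmono.monotone (not_lt.1 hlt)
          omega
        have := hmono.monotone this
        rw [← hL]
        exact this) hary hper
    refine ⟨K, fun i j => ?_, fun i w hw => ?_⟩
    · rw [he, he]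
      have a1 := hK1 (K + i) (by omega)
      have a2 := hK1 (K + j) (by omega)
      rw [h3] at a1 a2
      simp only [List.map_cons, List.map_nil, List.reverse_cons, List.reverse_nil,
        List.nil_append, List.cons.injEq, and_true]
      rw [show K + (i + 1) = K + i + 1 from rfl, show K + (j + 1) = K + j + 1 from rfl, a1, a2]
    · rw [he] at hw
      rw [he, he]
      exact (cond2_iff (hinv (K + i))).2 (hK2 (K + i) (by omega)) w hw
  · rintro ⟨K, hK1, hK2⟩
    refine periodic_of_cond (M := M) (K := K) hinv h2 h4 h5 ?_ ?_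
    · intro m hm
      obtain ⟨i, rfl⟩ := Nat.exists_eq_add_of_le hm
      have := hK1 i 0
      rw [he, he] at this
      simp only [List.map_cons, List.map_nil, List.reverse_cons, List.reverse_nil,
        List.nil_append, List.cons.injEq, and_true, add_zero] at this
      rw [h3, h3]
      exact this
    · intro m hm
      obtain ⟨i, rfl⟩ := Nat.exists_eq_add_of_le hm
      refine (cond2_iff (hinv (K + i))).1 fun w hw => ?_
      have := hK2 i w (by rw [he]; exact hw)
      rw [he, he] at this
      exact this

end Pool.Agent.Results.MP_757726_co.PeriodicityCriterion
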